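import Mathlib

set_option autoImplicit false

/-! # The omega involution modulo 2 is `n`-transverse for every `n`

`R = F₂[e₁, e₂, …]`, `ω (e k) = h k` with `∑ e i * h (k - i) = 0`, `S = R^ω`,
`I = {x + ω x} ⊆ S`. Then `(R I ^ n) ∩ S = I ^ n` for every `n`. -/

open MvPolynomial

namespace Pool.Agent.Results.MP_628479_al.AllTransverse

/-- The ring of symmetric functions over `F₂`, as the polynomial ring in the elementary symmetric
functions `e 1, e 2, …` (the variable `X k` is `e (k+1)`). -/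
abbrev R : Type := MvPolynomial ℕ (ZMod 2)

/-- The elementary symmetric functions, `e 0 = 1`. -/
noncomputable def e : ℕ → R
  | 0 => 1
  | (k + 1) => X k

/-- The complete homogeneous symmetric functions: `h 0 = 1` and
`h (k + 1) = e 1 * h k + e 2 * h (k - 1) + ⋯ + e (k+1) * h 0` (signs are irrelevant modulo 2). -/
noncomputable def h : ℕ → R
  | 0 => 1
  | (k + 1) => ∑ i : Fin (k + 1), e (i + 1) * h (k - i)

/-- The ring homomorphism (an involution, see `result`) `ω : R → R` with `ω (e k) = h k` for all `k ≥ 1`. -/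
noncomputable def ω : R →+* R := (aeval (fun k => h (k + 1)) : R →ₐ[ZMod 2] R).toRingHom

/-- The subring `S = R^ω` of invariants. -/
noncomputable def S : Subring R := RingHom.eqLocus ω (RingHom.id R)

theorem two_eq : (2 : R) = 0 := by
  have : ((2 : ZMod 2)) = 0 := by decide
  calc (2 : R) = C (2 : ZMod 2) := (map_ofNat (C : ZMod 2 →+* R) 2).symm
    _ = 0 := by rw [this, C_0]

theorem addself (x : R) : x + x = 0 := by
  rw [← two_mul, two_eq, zero_mul]

theorem negeq (x : R) : -x = x := by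
  rw [neg_eq_iff_add_eq_zero, addself]

theorem subeq (x y : R) : x - y = x + y := by
  rw [sub_eq_add_neg, negeq]

theorem ω_e (k : ℕ) : ω (e k) = h k := by
  cases k with
  | zero => rw [e, h, map_one]
  | succ k =>
    rw [e]
    simp [ω]

theorem h_zero : h 0 = 1 := by rw [h]
theorem e_zero : e 0 = 1 := by rw [e]

theorem h_succ (k : ℕ) : h (k + 1) = ∑ p ∈ Finset.HasAntidiagonal.antidiagonal k, e (p.1 + 1) * h p.2 := by
  rw [h, Finset.Nat.sum_antidiagonal_eq_sum_range_succ_mk, Finset.sum_range]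

theorem conv (k : ℕ) : ∑ p ∈ Finset.HasAntidiagonal.antidiagonal (k + 1), e p.1 * h p.2 = 0 := by
  rw [Finset.Nat.sum_antidiagonal_succ, e_zero, one_mul, ← h_succ, addself]

/-- generating series -/
noncomputable def E : PowerSeries R := PowerSeries.mk e
noncomputable def H : PowerSeries R := PowerSeries.mk h

theorem EH : E * H = 1 := by
  ext n
  rw [PowerSeries.coeff_mul]
  simp only [E, H, PowerSeries.coeff_mk]
  cases n with
  | zero => simp [e_zero, h_zero]
  | succ n => rw [conv]; simp [PowerSeries.coeff_one]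

theorem mapE : PowerSeries.map ω E = H := by
  ext1 n
  rw [PowerSeries.coeff_map, E, H, PowerSeries.coeff_mk, PowerSeries.coeff_mk, ω_e]

theorem mapH : PowerSeries.map ω H = E := by
  have h1 : H * PowerSeries.map ω H = 1 := by
    have := congrArg (PowerSeries.map ω) EH
    rw [map_mul, mapE, map_one] at this
    exact this
  calc PowerSeries.map ω H = (E * H) * PowerSeries.map ω H := by rw [EH, one_mul]
    _ = E * (H * PowerSeries.map ω H) := by rw [mul_assoc]
    _ = E := by rw [h1, mul_one]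

theorem ω_h (k : ℕ) : ω (h k) = e k := by
  have := congrArg (PowerSeries.coeff k) mapH
  rwa [PowerSeries.coeff_map, E, H, PowerSeries.coeff_mk, PowerSeries.coeff_mk] at this

theorem ω_ω (x : R) : ω (ω x) = x := by
  have : (ω.comp ω) = RingHom.id R := by
    apply MvPolynomial.ringHom_ext
    · intro r
      have hh : ∀ r : ZMod 2, ω (C r) = C r := by
        intro r
        simp [ω]
      rw [RingHom.comp_apply, hh, hh, RingHom.id_apply]
    · intro i
      have h1 : (X i : R) = e (i + 1) := by rw [e]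
      rw [RingHom.comp_apply, h1, ω_e, ω_h, RingHom.id_apply]
  exact congrArg (fun g => g x) this

/-- `d x = x + ω x` -/
noncomputable def d (x : R) : R := x + ω x

theorem d_add (x y : R) : d (x + y) = d x + d y := by
  simp only [d, map_add]; ring

theorem d_mul (x y : R) : d (x * y) = x * d y + y * d x + d x * d y := by
  simp only [d, map_mul]
  have := addself (x * y)
  linear_combination (-1) * addself (x * y) - addself (x * ω y) - addself (y * ω x)

theorem ω_eq (x : R) : ω x = x + d x := by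
  rw [d, ← add_assoc, addself, zero_add]

theorem ω_d (x : R) : ω (d x) = d x := by
  rw [d, map_add, ω_ω, add_comm]

theorem d_zero : d 0 = 0 := by simp [d]

theorem d_of_fix {s : R} (hs : ω s = s) : d s = 0 := by rw [d, hs, addself]

theorem d_d (x : R) : d (d x) = 0 := d_of_fix (ω_d x)

theorem d_smul {s : R} (hs : ω s = s) (x : R) : d (s * x) = s * d x := by
  rw [d_mul, d_of_fix hs]; ring

theorem d_sq (x : R) : d (x * x) = d x * d x := by
  rw [d_mul, addself, zero_add]

/-- squares of the elementary symmetric functions -/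
noncomputable def q (k : ℕ) : R := X k * X k

/-- the ideal of `q 0, …, q (j-1)` (that is of `e i ^ 2`, `1 ≤ i ≤ j`) -/
noncomputable def K (j : ℕ) : Ideal R := Ideal.span (q '' {i | i < j})

/-- the ideal of all the `q i` -/
noncomputable def J : Ideal R := Ideal.span (Set.range q)


theorem e_succ (k : ℕ) : e (k + 1) = X k := by rw [e]

theorem q_eq (k : ℕ) : q k = e (k + 1) * e (k + 1) := by rw [e_succ, q]

theorem q_mono (k : ℕ) : q k = monomial (Finsupp.single k 2) 1 := by
  rw [q, X, monomial_mul, ← Finsupp.single_add, mul_one]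

theorem K_mono {i j : ℕ} (hij : i ≤ j) : K i ≤ K j :=
  Ideal.span_mono (Set.image_mono fun _ hx => lt_of_lt_of_le hx hij)

theorem K_le_J (j : ℕ) : K j ≤ J := Ideal.span_mono (Set.image_subset_range _ _)

theorem q_mem_K {i j : ℕ} (hij : i < j) : q i ∈ K j := Ideal.subset_span ⟨i, hij, rfl⟩

theorem q_mem_J (i : ℕ) : q i ∈ J := Ideal.subset_span ⟨i, rfl⟩

theorem coeff_EE (m : ℕ) :
    PowerSeries.coeff m (E * E) = if Even m then e (m / 2) * e (m / 2) else 0 := by
  rw [PowerSeries.coeff_mul]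
  simp only [E, PowerSeries.coeff_mk]
  have h1 : ∑ p ∈ Finset.HasAntidiagonal.antidiagonal m,
      (if p.1 = p.2 then (0 : R) else e p.1 * e p.2) = 0 := by
    refine Finset.sum_involution (fun p _ => p.swap) ?_ ?_ ?_ ?_
    · intro a _
      rcases eq_or_ne a.1 a.2 with hh | hh
      · simp [hh]
      · rw [if_neg hh, Prod.fst_swap, Prod.snd_swap, if_neg (Ne.symm hh), mul_comm (e a.2), addself]
    · intro a _ ha hs
      apply ha
      have : a.1 = a.2 := by
        have := congrArg Prod.fst hs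
        rw [Prod.fst_swap] at this
        exact this.symm
      rw [if_pos this]
    · intro a ha
      exact Finset.HasAntidiagonal.swap_mem_antidiagonal.2 ha
    · intro a _
      exact Prod.swap_swap a
  have h2 : ∑ p ∈ Finset.HasAntidiagonal.antidiagonal m, e p.1 * e p.2 =
      ∑ p ∈ Finset.HasAntidiagonal.antidiagonal m, (if p.1 = p.2 then e p.1 * e p.2 else 0) := by
    calc ∑ p ∈ Finset.HasAntidiagonal.antidiagonal m, e p.1 * e p.2 =
        ∑ p ∈ Finset.HasAntidiagonal.antidiagonal m, ((if p.1 = p.2 then e p.1 * e p.2 else 0) +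
          (if p.1 = p.2 then (0 : R) else e p.1 * e p.2)) := by
          refine Finset.sum_congr rfl fun p _ => ?_
          split_ifs <;> simp
      _ = _ := by rw [Finset.sum_add_distrib, h1, add_zero]
  rw [h2]
  split_ifs with hm
  · obtain ⟨k, rfl⟩ := hm
    have hk : (k + k) / 2 = k := by omega
    rw [hk, Finset.sum_eq_single (k, k)]
    · simp
    · intro p hp hne
      rw [Finset.HasAntidiagonal.mem_antidiagonal] at hp
      rw [if_neg]
      intro h3
      apply hne
      ext <;> simp <;> omega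
    · intro h3
      exact absurd (Finset.HasAntidiagonal.mem_antidiagonal.2 (rfl : k + k = k + k)) h3
  · refine Finset.sum_eq_zero fun p hp => ?_
    rw [Finset.HasAntidiagonal.mem_antidiagonal] at hp
    rw [if_neg]
    intro h3
    exact hm ⟨p.1, by omega⟩

theorem d_e (m : ℕ) : d (e m) = ∑ p ∈ (Finset.HasAntidiagonal.antidiagonal m).erase (0, m),
    (if Even p.1 then e (p.1 / 2) * e (p.1 / 2) else 0) * h p.2 := by
  have h1 : E + H = E * E * H + H := by rw [mul_assoc, EH, mul_one]
  have h2 := congrArg (PowerSeries.coeff m) h1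
  rw [map_add, map_add, PowerSeries.coeff_mul _ (E * E)] at h2
  simp only [coeff_EE] at h2
  rw [← Finset.add_sum_erase _ _ (Finset.HasAntidiagonal.mem_antidiagonal.2 (zero_add m) :
    (0, m) ∈ Finset.HasAntidiagonal.antidiagonal m)] at h2
  simp only [E, H, PowerSeries.coeff_mk] at h2
  rw [d, ω_e, h2]
  simp only [Even.zero, if_true, Nat.zero_div, e_zero, one_mul]
  rw [add_comm, ← add_assoc, addself, zero_add]

theorem d_e_mem (m : ℕ) : d (e m) ∈ K (m / 2) := by
  rw [d_e]
  refine Ideal.sum_mem _ fun p hp => ?_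
  rw [Finset.mem_erase, Finset.HasAntidiagonal.mem_antidiagonal] at hp
  split_ifs with h3
  · obtain ⟨k, hk⟩ := h3
    have hk0 : k ≠ 0 := by
      rintro rfl
      apply hp.1
      ext <;> simp <;> omega
    obtain ⟨l, rfl⟩ := Nat.exists_eq_succ_of_ne_zero hk0
    have : p.1 / 2 = l + 1 := by omega
    rw [this, ← q_eq]
    exact Ideal.mul_mem_right _ _ (q_mem_K (by omega))
  · rw [zero_mul]; exact Ideal.zero_mem _

theorem d_e_even (j : ℕ) : d (e (2 * j + 2)) - q j ∈ K j := by
  have hm : ((2 * j + 2, 0) : ℕ × ℕ) ∈ (Finset.HasAntidiagonal.antidiagonal (2 * j + 2)).erase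
      (0, 2 * j + 2) := by
    rw [Finset.mem_erase, Finset.HasAntidiagonal.mem_antidiagonal]
    refine ⟨?_, rfl⟩
    intro h3
    have := congrArg Prod.fst h3
    simp at this
  rw [d_e, ← Finset.add_sum_erase _ _ hm]
  have h1 : Even (2 * j + 2) := ⟨j + 1, by ring⟩
  have h2 : (2 * j + 2) / 2 = j + 1 := by omega
  simp only [h1, if_true, h2, h_zero, mul_one]
  rw [← q_eq, add_sub_cancel_left]
  refine Ideal.sum_mem _ fun p hp => ?_
  rw [Finset.mem_erase, Finset.mem_erase, Finset.HasAntidiagonal.mem_antidiagonal] at hp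
  split_ifs with h3
  · obtain ⟨k, hk⟩ := h3
    have hk0 : k ≠ 0 := by
      rintro rfl
      apply hp.2.1
      ext <;> simp <;> omega
    obtain ⟨l, rfl⟩ := Nat.exists_eq_succ_of_ne_zero hk0
    have : p.1 / 2 = l + 1 := by omega
    rw [this, ← q_eq]
    have hl : l < j := by
      by_contra hlt
      apply hp.1
      ext <;> simp <;> omega
    exact Ideal.mul_mem_right _ _ (q_mem_K hl)
  · rw [zero_mul]; exact Ideal.zero_mem _

theorem d_mem_J (x : R) : d x ∈ J := by
  induction x using MvPolynomial.induction_on with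
  | C a =>
    have : ω (C a) = C a := by simp [ω]
    rw [d_of_fix this]; exact Ideal.zero_mem _
  | add f g hf hg => rw [d_add]; exact Ideal.add_mem _ hf hg
  | mul_X f i hf =>
    have hX : d (X i) ∈ J := by
      rw [← e_succ]; exact K_le_J _ (d_e_mem _)
    rw [d_mul]
    exact Ideal.add_mem _ (Ideal.add_mem _ (Ideal.mul_mem_left _ _ hX) (Ideal.mul_mem_left _ _ hf))
      (Ideal.mul_mem_left _ _ hX)

theorem d_J {x : R} (hx : x ∈ J) : d x ∈ J ^ 2 := by
  refine Submodule.span_induction (p := fun x _ => d x ∈ J ^ 2) ?_ ?_ ?_ ?_ hx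
  · rintro _ ⟨i, rfl⟩
    rw [q, d_sq, pow_two]
    exact Ideal.mul_mem_mul (d_mem_J _) (d_mem_J _)
  · rw [d_zero]; exact Ideal.zero_mem _
  · intro x y _ _ h1 h2
    rw [d_add]; exact Ideal.add_mem _ h1 h2
  · intro r x hx h1
    rw [smul_eq_mul, d_mul]
    refine Ideal.add_mem _ (Ideal.add_mem _ (Ideal.mul_mem_left _ _ h1) ?_)
      (Ideal.mul_mem_left _ _ h1)
    rw [pow_two]
    exact Ideal.mul_mem_mul hx (d_mem_J _)

theorem d_pow (n : ℕ) : ∀ x ∈ J ^ n, d x ∈ J ^ (n + 1) := by
  induction n with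
  | zero => intro x _; rw [zero_add, pow_one]; exact d_mem_J x
  | succ n ih =>
    intro x hx
    rw [pow_succ] at hx
    refine Submodule.mul_induction_on hx ?_ ?_
    · intro a ha b hb
      rw [d_mul]
      have h1 : a * d b ∈ J ^ (n + 1 + 1) := by
        have := Ideal.mul_mem_mul ha (d_J hb)
        rwa [← pow_add] at this
      have h2 : b * d a ∈ J ^ (n + 1 + 1) := by
        have := Ideal.mul_mem_mul (ih a ha) hb
        rwa [← pow_succ, mul_comm] at this
      have h3 : d a * d b ∈ J ^ (n + 1 + 1) := by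
        have := Ideal.mul_mem_mul (ih a ha) (d_mem_J b)
        rwa [← pow_succ] at this
      exact Ideal.add_mem _ (Ideal.add_mem _ h1 h2) h3
    · intro a b ha hb
      rw [d_add]; exact Ideal.add_mem _ ha hb

theorem d_K {j : ℕ} {x : R} (hx : x ∈ K j) : d x ∈ K j := by
  refine Submodule.span_induction (p := fun x _ => d x ∈ K j) ?_ ?_ ?_ ?_ hx
  · rintro _ ⟨i, hi, rfl⟩
    rw [q_eq, d_sq]
    refine Ideal.mul_mem_right _ _ (K_mono ?_ (d_e_mem _))
    have : i < j := hi
    omega
  · rw [d_zero]; exact Ideal.zero_mem _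
  · intro x y _ _ h1 h2
    rw [d_add]; exact Ideal.add_mem _ h1 h2
  · intro r x hx h1
    rw [smul_eq_mul, d_mul]
    exact Ideal.add_mem _ (Ideal.add_mem _ (Ideal.mul_mem_left _ _ h1) (Ideal.mul_mem_right _ _ hx))
      (Ideal.mul_mem_left _ _ h1)

theorem ω_pow {n : ℕ} {x : R} (hx : x ∈ J ^ n) : ω x ∈ J ^ n := by
  rw [ω_eq]
  exact Ideal.add_mem _ hx (Ideal.pow_le_pow_right (Nat.le_succ n) (d_pow n x hx))

/-! ### monomial ideals -/

theorem mem_K {j : ℕ} {x : R} : x ∈ K j ↔ ∀ s ∈ x.support, ∃ i < j, 2 ≤ s i := by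
  have h1 : K j = Ideal.span ((fun s => monomial s (1 : ZMod 2)) ''
      ((fun i => Finsupp.single i 2) '' {i | i < j})) := by
    rw [K, Set.image_image]
    congr 1
    refine Set.image_congr fun i _ => q_mono i
  rw [h1, mem_ideal_span_monomial_image]
  refine forall₂_congr fun s _ => ?_
  constructor
  · rintro ⟨_, ⟨i, hi, rfl⟩, hle⟩
    exact ⟨i, hi, Finsupp.single_le_iff.1 hle⟩
  · rintro ⟨i, hi, hle⟩
    exact ⟨_, ⟨i, hi, rfl⟩, Finsupp.single_le_iff.2 hle⟩

/-- the monomial ideal of the squares of the monomials of degree `n` -/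
noncomputable def P (n : ℕ) : Ideal R :=
  Ideal.span ((fun s => monomial s (1 : ZMod 2)) '' {s | ∃ α : ℕ →₀ ℕ, α.degree = n ∧ s = 2 • α})

theorem mem_P {n : ℕ} {x : R} :
    x ∈ P n ↔ ∀ s ∈ x.support, ∃ α : ℕ →₀ ℕ, α.degree = n ∧ 2 • α ≤ s := by
  rw [P, mem_ideal_span_monomial_image]
  refine forall₂_congr fun s _ => ?_
  constructor
  · rintro ⟨_, ⟨α, hα, rfl⟩, hle⟩
    exact ⟨α, hα, hle⟩
  · rintro ⟨α, hα, hle⟩
    exact ⟨_, ⟨α, hα, rfl⟩, hle⟩

theorem J_pow (n : ℕ) : J ^ n = P n := by
  induction n with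
  | zero =>
    rw [pow_zero, Ideal.one_eq_top, eq_comm, Ideal.eq_top_iff_one]
    refine Ideal.subset_span ⟨0, ⟨0, by simp, by simp⟩, rfl⟩
  | succ n ih =>
    rw [pow_succ, ih]
    apply le_antisymm
    · rw [P, J, Ideal.span_mul_span', Ideal.span_le]
      rintro _ ⟨_, ⟨_, ⟨α, hα, rfl⟩, rfl⟩, _, ⟨i, rfl⟩, rfl⟩
      refine Ideal.subset_span ⟨2 • (α + Finsupp.single i 1), ⟨_, ?_, rfl⟩, ?_⟩
      · rw [map_add, hα, Finsupp.degree_single]
      · simp only
        rw [q_mono, monomial_mul, mul_one, smul_add, Finsupp.smul_single]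
        rfl
    · rw [P, Ideal.span_le]
      rintro _ ⟨_, ⟨α, hα, rfl⟩, rfl⟩
      have hne : α ≠ 0 := by
        rintro rfl
        simp at hα
      obtain ⟨i, hi⟩ := Finsupp.ne_iff.1 hne
      have hi' : Finsupp.single i 1 ≤ α := by
        rw [Finsupp.single_le_iff]
        simp at hi
        omega
      obtain ⟨β, rfl⟩ := exists_add_of_le hi'
      have hβ : β.degree = n := by
        rw [map_add, Finsupp.degree_single] at hα
        omega
      have h1 : (monomial (2 • (Finsupp.single i 1 + β)) (1 : ZMod 2) : R) =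
          monomial (2 • β) 1 * q i := by
        rw [q_mono, monomial_mul, mul_one, smul_add, Finsupp.smul_single, add_comm]
        rfl
      simp only [SetLike.mem_coe]
      rw [h1]
      exact Ideal.mul_mem_mul (Ideal.subset_span ⟨_, ⟨β, hβ, rfl⟩, rfl⟩) (q_mem_J i)

theorem F1 {j : ℕ} {u : R} (hu : q j * u ∈ K j) : u ∈ K j := by
  rw [mem_K] at hu ⊢
  intro s hs
  obtain ⟨i, hi, h2⟩ := hu (Finsupp.single j 2 + s) (by
    rw [mem_support_iff, q_mono, coeff_monomial_mul, one_mul]
    exact mem_support_iff.1 hs)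
  refine ⟨i, hi, ?_⟩
  rw [Finsupp.add_apply, Finsupp.single_apply, if_neg (by omega), zero_add] at h2
  exact h2

theorem F2 {j n : ℕ} {p : R} (hp : p ∈ K (j + 1)) (hp' : p ∈ J ^ (n + 1)) :
    ∃ u ∈ J ^ n, p - q j * u ∈ K j := by
  classical
  rw [mem_K] at hp
  rw [J_pow, mem_P] at hp'
  let T := p.support.filter (fun s => ¬ ∃ i < j, 2 ≤ s i)
  have hT : ∀ s ∈ T, Finsupp.single j 2 ≤ s := by
    intro s hs
    rw [Finset.mem_filter] at hs
    obtain ⟨i, hi, h2⟩ := hp s hs.1
    have : i = j := by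
      by_contra hne
      exact hs.2 ⟨i, by omega, h2⟩
    subst this
    exact Finsupp.single_le_iff.2 h2
  refine ⟨∑ s ∈ T, monomial (s - Finsupp.single j 2) (coeff s p), ?_, ?_⟩
  · rw [J_pow]
    refine Ideal.sum_mem _ fun s hs => ?_
    rw [mem_P]
    intro t ht
    have ht' : t = s - Finsupp.single j 2 := by
      by_contra hne
      rw [mem_support_iff, coeff_monomial, if_neg (Ne.symm hne)] at ht
      exact ht rfl
    subst ht'
    obtain ⟨α, hα, hle⟩ := hp' s (Finset.mem_filter.1 hs).1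
    have hsj : 2 ≤ s j := Finsupp.single_le_iff.1 (hT s hs)
    have hle' : ∀ i, 2 * α i ≤ s i := by
      intro i
      have := hle i
      rwa [Finsupp.smul_apply, smul_eq_mul] at this
    -- choose the index to decrease
    obtain ⟨i, hi, hij⟩ : ∃ i, 1 ≤ α i ∧ (i = j ∨ α j = 0) := by
      by_cases h0 : α j = 0
      · have hne : α ≠ 0 := by
          rintro rfl
          simp at hα
        obtain ⟨i, hi⟩ := Finsupp.ne_iff.1 hne
        simp at hi
        exact ⟨i, by omega, Or.inr h0⟩
      · exact ⟨j, by omega, Or.inl rfl⟩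
    have hi' : Finsupp.single i 1 ≤ α := Finsupp.single_le_iff.2 hi
    obtain ⟨β, rfl⟩ := exists_add_of_le hi'
    refine ⟨β, ?_, ?_⟩
    · rw [map_add, Finsupp.degree_single] at hα
      omega
    · intro k
      have hk := hle' k
      rw [Finsupp.smul_apply, smul_eq_mul, Finsupp.tsub_apply]
      rw [Finsupp.add_apply, Finsupp.single_apply] at hk
      rw [Finsupp.single_apply]
      rcases eq_or_ne j k with rfl | hjk
      · rw [if_pos rfl]
        rcases hij with rfl | h0
        · rw [if_pos rfl] at hk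
          omega
        · rw [Finsupp.add_apply] at h0
          omega
      · rw [if_neg hjk]
        omega
  · have h1 : q j * ∑ s ∈ T, monomial (s - Finsupp.single j 2) (coeff s p) =
        ∑ s ∈ T, monomial s (coeff s p) := by
      rw [Finset.mul_sum]
      refine Finset.sum_congr rfl fun s hs => ?_
      rw [q_mono, monomial_mul, one_mul, add_tsub_cancel_of_le (hT s hs)]
    rw [h1]
    have h2 : p - ∑ s ∈ T, monomial s (coeff s p) =
        ∑ s ∈ p.support.filter (fun s => ∃ i < j, 2 ≤ s i), monomial s (coeff s p) := by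
      rw [sub_eq_iff_eq_add]
      conv_lhs => rw [p.as_sum]
      exact (Finset.sum_filter_add_sum_filter_not _ _ _).symm
    rw [h2]
    refine Ideal.sum_mem _ fun s hs => ?_
    rw [mem_K]
    intro t ht
    have ht' : t = s := by
      by_contra hne
      rw [mem_support_iff, coeff_monomial, if_neg (Ne.symm hne)] at ht
      exact ht rfl
    subst ht'
    exact (Finset.mem_filter.1 hs).2

theorem J_exists {f : R} (hf : f ∈ J) : ∃ N, f ∈ K N := by
  refine Submodule.span_induction (p := fun x _ => ∃ N, x ∈ K N) ?_ ?_ ?_ ?_ hf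
  · rintro _ ⟨i, rfl⟩
    exact ⟨i + 1, q_mem_K (Nat.lt_succ_self i)⟩
  · exact ⟨0, Ideal.zero_mem _⟩
  · rintro x y _ _ ⟨a, ha⟩ ⟨b, hb⟩
    exact ⟨max a b, Ideal.add_mem _ (K_mono (le_max_left _ _) ha) (K_mono (le_max_right _ _) hb)⟩
  · rintro r x _ ⟨a, ha⟩
    exact ⟨a, Ideal.mul_mem_left _ _ ha⟩

theorem d_homotopy (x u : R) : d (x * ω u) = x * d u + d x * u := by
  have h1 : d (ω u) = d u := by rw [d, ω_ω, d, add_comm]
  rw [d_mul, h1, ω_eq u]
  linear_combination addself (d u * d x)

theorem step {j n : ℕ} {f g : R} (hf : f ∈ J ^ (n + 1)) (hd : d f = 0) (hg : g ∈ J ^ n)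
    (h1 : f - d g ∈ K (j + 1)) : ∃ g' ∈ J ^ n, f - d g' ∈ K j := by
  obtain ⟨u, hu, h2⟩ := F2 h1 (Ideal.sub_mem _ hf (d_pow n g hg))
  set x : R := e (2 * j + 2) with hx
  have hv : d x - q j ∈ K j := d_e_even j
  have hz : f - d g - d x * u ∈ K j := by
    have : f - d g - d x * u = (f - d g - q j * u) - (d x - q j) * u := by ring
    rw [this]
    exact Ideal.sub_mem _ h2 (Ideal.mul_mem_right _ _ hv)
  have hdz : d (f - d g - d x * u) = d x * d u := by
    rw [subeq, d_add, subeq, d_add, hd, d_d, d_smul (ω_d x)]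
    ring
  have h3 : d x * d u ∈ K j := hdz ▸ d_K hz
  have h4 : q j * d u ∈ K j := by
    have : q j * d u = d x * d u - (d x - q j) * d u := by ring
    rw [this]
    exact Ideal.sub_mem _ h3 (Ideal.mul_mem_right _ _ hv)
  have h5 : d u ∈ K j := F1 h4
  refine ⟨g + x * ω u, Ideal.add_mem _ hg (Ideal.mul_mem_left _ _ (ω_pow hu)), ?_⟩
  have : f - d (g + x * ω u) = (f - d g - d x * u) - x * d u := by
    rw [d_add, d_homotopy]; ring
  rw [this]
  exact Ideal.sub_mem _ hz (Ideal.mul_mem_left _ _ h5)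

theorem main {n : ℕ} {f : R} (hf : f ∈ J ^ (n + 1)) (hd : d f = 0) : ∃ g ∈ J ^ n, f = d g := by
  obtain ⟨N, hN⟩ := J_exists (Ideal.pow_le_self (Nat.succ_ne_zero n) hf)
  have key : ∀ k j, j + k = N → ∃ g ∈ J ^ n, f - d g ∈ K j := by
    intro k
    induction k with
    | zero =>
      intro j hj
      refine ⟨0, Ideal.zero_mem _, ?_⟩
      rw [d_zero, sub_zero]
      have : j = N := by omega
      rw [this]; exact hN
    | succ k ih =>
      intro j hj
      obtain ⟨g, hg, h1⟩ := ih (j + 1) (by omega)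
      exact step hf hd hg h1
  obtain ⟨g, hg, h1⟩ := key N 0 (by omega)
  refine ⟨g, hg, ?_⟩
  have h0 : K 0 = ⊥ := by
    rw [K]
    simp
  rw [h0, Ideal.mem_bot, sub_eq_zero] at h1
  exact h1

/-- The ideal `I = {x + ω x : x ∈ R}` of `S`. -/
noncomputable def I : Ideal S where
  carrier := {s | ∃ x : R, (s : R) = x + ω x}
  add_mem' := by
    rintro a b ⟨x, hx⟩ ⟨y, hy⟩
    refine ⟨x + y, ?_⟩
    rw [Subring.coe_add, hx, hy, map_add]; ring
  zero_mem' := ⟨0, by simp⟩
  smul_mem' := by
    rintro c a ⟨x, hx⟩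
    refine ⟨c * x, ?_⟩
    have hc : ω (c : R) = c := c.2
    rw [smul_eq_mul, Subring.coe_mul, hx, map_mul, hc]; ring

theorem map_I : I.map S.subtype = J := by
  apply le_antisymm
  · rw [Ideal.map_le_iff_le_comap]
    rintro s ⟨x, hx⟩
    rw [Ideal.mem_comap]
    change (s : R) ∈ J
    rw [hx]
    exact d_mem_J x
  · rw [J, Ideal.span_le]
    have hdm : ∀ x : R, d x ∈ I.map S.subtype := by
      intro x
      have hS : d x ∈ S := ω_d x
      exact Ideal.mem_map_of_mem S.subtype (show (⟨d x, hS⟩ : S) ∈ I from ⟨x, rfl⟩)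
    have key : ∀ j, K j ≤ I.map S.subtype := by
      intro j
      induction j with
      | zero => rw [K]; simp
      | succ j ih =>
        rw [K, Ideal.span_le]
        rintro _ ⟨i, hi, rfl⟩
        rcases Nat.lt_succ_iff_lt_or_eq.1 hi with h1 | rfl
        · exact ih (q_mem_K h1)
        · have : q i = d (e (2 * i + 2)) - (d (e (2 * i + 2)) - q i) := by ring
          rw [SetLike.mem_coe, this]
          exact Ideal.sub_mem _ (hdm _) (ih (d_e_even i))
    rintro _ ⟨i, rfl⟩
    exact key (i + 1) (q_mem_K (Nat.lt_succ_self i))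

theorem d_mem_pow {n : ℕ} {g : R} (hg : g ∈ (I ^ n).map S.subtype) (t : S) (ht : (t : R) = d g) :
    t ∈ I ^ (n + 1) := by
  have key : ∀ g ∈ (I ^ n).map S.subtype, (⟨d g, ω_d g⟩ : S) ∈ I ^ (n + 1) := by
    intro g hg
    have h := Submodule.span_induction
      (p := fun g _ => ∀ r : R, (⟨d (r * g), ω_d (r * g)⟩ : S) ∈ I ^ (n + 1)) ?_ ?_ ?_ ?_ hg
    · have h1 := h 1
      simp only [one_mul] at h1
      exact h1
    · rintro _ ⟨s, hs, rfl⟩ r
      have : (⟨d (r * S.subtype s), ω_d _⟩ : S) = s * ⟨d r, ω_d r⟩ := by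
        ext1
        change d (r * (s : R)) = (s : R) * d r
        rw [mul_comm, d_smul s.2]
      rw [this, pow_succ]
      exact Ideal.mul_mem_mul hs ⟨r, rfl⟩
    · intro r
      have : (⟨d (r * 0), ω_d _⟩ : S) = 0 := by
        ext1
        change d (r * 0) = 0
        rw [mul_zero, d_zero]
      rw [this]; exact Ideal.zero_mem _
    · intro x y _ _ h1 h2 r
      have : (⟨d (r * (x + y)), ω_d _⟩ : S) = ⟨d (r * x), ω_d _⟩ + ⟨d (r * y), ω_d _⟩ := by
        ext1
        change d (r * (x + y)) = d (r * x) + d (r * y)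
        rw [mul_add, d_add]
      rw [this]; exact Ideal.add_mem _ (h1 r) (h2 r)
    · intro a x _ h1 r
      have : (⟨d (r * (a • x)), ω_d _⟩ : S) = ⟨d ((r * a) * x), ω_d _⟩ := by
        ext1
        change d (r * (a * x)) = d ((r * a) * x)
        rw [mul_assoc]
      rw [this]; exact h1 _
  have : t = ⟨d g, ω_d g⟩ := Subtype.ext ht
  rw [this]
  exact key g hg

/-- `R` is the polynomial ring in `e 1, e 2, …` over `F₂`, `h` satisfies
`∑ e i * h (k - i) = 0` for `k ≥ 1`, `ω` is the involution with `ω (e k) = h k`,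
`S = {x | ω x = x}`, `I = {x + ω x} ⊆ S`; and `R I ^ n ∩ S = I ^ n` for every `n`. -/
theorem result :
    (∀ k : ℕ, e (k + 1) = (X k : MvPolynomial ℕ (ZMod 2))) ∧ e 0 = 1 ∧ h 0 = 1 ∧
    (∀ k : ℕ, 1 ≤ k → ∑ i ∈ Finset.range (k + 1), e i * h (k - i) = 0) ∧
    (∀ k : ℕ, ω (e k) = h k) ∧ (∀ x : R, ω (ω x) = x) ∧
    (∀ x : R, x ∈ S ↔ ω x = x) ∧
    (∀ s : S, s ∈ I ↔ ∃ x : R, (s : R) = x + ω x) ∧
    ∀ n : ℕ, ((I ^ n).map S.subtype).comap S.subtype = I ^ n := by
  refine ⟨e_succ, e_zero, h_zero, ?_, ω_e, ω_ω, fun x => Iff.rfl, fun s => Iff.rfl, ?_⟩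
  · intro k hk
    obtain ⟨m, rfl⟩ := Nat.exists_eq_add_of_le' hk
    have := conv m
    rw [Finset.Nat.sum_antidiagonal_eq_sum_range_succ_mk] at this
    exact this
  · intro n
    apply le_antisymm
    · intro s hs
      cases n with
      | zero => rw [pow_zero, Ideal.one_eq_top]; exact Submodule.mem_top
      | succ n =>
        rw [Ideal.mem_comap, Ideal.map_pow, map_I] at hs
        obtain ⟨g, hg, h1⟩ := main hs (d_of_fix s.2)
        rw [← map_I, ← Ideal.map_pow] at hg
        exact d_mem_pow hg s h1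
    · exact Ideal.le_comap_map

end Pool.Agent.Results.MP_628479_al.AllTransverse
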